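import Pool.Agent.H24.CL.Targets

/-!
# The variance lemma (module VA, helper10)
-/

set_option autoImplicit false

open Finset MeasureTheory

namespace Pool.Agent.H10.CL

open Pool.Agent.H24.CL

/-- the torus has measure one -/
theorem vol_univ {k : ℕ} : (volume : Measure (X k)).real Set.univ = 1 := by
  rw [Measure.real, volume_pi, Measure.pi_univ]
  simp

/-- the integral of a nontrivial character vanishes -/
theorem int_char (hE : T_EX) {k : ℕ} (ψ : X k →+ UnitAddCircle) (t : X k) (ht : e (ψ t) ≠ 1) :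
    ∫ a : X k, e (ψ a) = 0 := by
  obtain ⟨-, hadd, -⟩ := hE
  have h1 : ∫ a : X k, e (ψ (a + t)) = ∫ a : X k, e (ψ a) :=
    integral_add_right_eq_self (fun a => e (ψ a)) t
  have h2 : ∀ a, e (ψ (a + t)) = e (ψ a) * e (ψ t) := fun a => by rw [map_add, hadd]
  simp_rw [h2] at h1
  rw [integral_mul_const] at h1
  have h3 : (∫ a : X k, e (ψ a)) * (e (ψ t) - 1) = 0 := by
    rw [mul_sub, h1, mul_one, sub_self]
  rcases mul_eq_zero.1 h3 with h | h
  · exact h
  · exact absurd (sub_eq_zero.1 h) ht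

/-- the mean square of a sum of distinct characters -/
theorem int_sq (hE : T_EX) {k : ℕ} {ι : Type} [DecidableEq ι] (J : Finset ι)
    (ψ : ι → (X k →+ UnitAddCircle)) (hc : ∀ j, Continuous (ψ j))
    (hd : ∀ j ∈ J, ∀ j' ∈ J, j ≠ j' → ∃ t, e (ψ j t - ψ j' t) ≠ 1) :
    ∫ a : X k, ‖∑ j ∈ J, e (ψ j a)‖ ^ 2 = J.card := by
  have hE' := hE
  obtain ⟨hn, hadd, h0, hneg, hce, -⟩ := hE
  have hsub : ∀ x y : UnitAddCircle, e (x - y) = e x * (starRingEnd ℂ) (e y) := fun x y => by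
    rw [sub_eq_add_neg, hadd, hneg]
  have h1 : ∀ a : X k, ((‖∑ j ∈ J, e (ψ j a)‖ ^ 2 : ℝ) : ℂ) =
      ∑ j ∈ J, ∑ j' ∈ J, e (ψ j a - ψ j' a) := fun a => by
    rw [← Complex.normSq_eq_norm_sq, ← Complex.mul_conj, map_sum, Finset.sum_mul_sum]
    exact Finset.sum_congr rfl fun j _ => Finset.sum_congr rfl fun j' _ => (hsub _ _).symm
  have hint : ∀ j j', Integrable (fun a : X k => e (ψ j a - ψ j' a)) := fun j j' =>
    (hce.comp ((hc j).sub (hc j'))).integrable_of_hasCompactSupport (HasCompactSupport.of_compactSpace _)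
  have h2 : ((∫ a : X k, ‖∑ j ∈ J, e (ψ j a)‖ ^ 2 : ℝ) : ℂ) = ((J.card : ℝ) : ℂ) := by
    rw [← integral_complex_ofReal]
    simp_rw [h1]
    rw [integral_finsetSum _ (fun j _ => integrable_finsetSum _ fun j' _ => hint j j')]
    have h3 : ∀ j ∈ J, ∫ a : X k, ∑ j' ∈ J, e (ψ j a - ψ j' a) = 1 := fun j hj => by
      rw [integral_finsetSum _ (fun j' _ => hint j j')]
      rw [Finset.sum_eq_single_of_mem j hj]
      · simp only [sub_self, h0, integral_const]
        rw [vol_univ]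
        simp
      · intro j' hj' hne
        obtain ⟨t, ht⟩ := hd j hj j' hj' hne.symm
        exact int_char hE' (ψ j - ψ j') t ht
    rw [Finset.sum_congr rfl h3]
    simp
  exact_mod_cast h2

/-- the phase at `n` as a homomorphism -/
noncomputable def Ph (k n : ℕ) : X k →+ UnitAddCircle where
  toFun a := P a n
  map_zero' := by simp [P]
  map_add' a a' := by simp [P, Finset.sum_add_distrib]

theorem Ph_cont (k n : ℕ) : Continuous (Ph k n) := by
  show Continuous (fun a : X k => ∑ i : Fin k, (n ^ (i.val + 1)) • a i)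
  fun_prop

/-- the value of a phase at a point supported on one coordinate -/
theorem P_single {k : ℕ} (i : Fin k) (x : ℝ) (n : ℕ) :
    P (fun j => if j = i then (x : UnitAddCircle) else 0 : X k) n =
      (((n : ℝ) ^ (i.val + 1) * x : ℝ) : UnitAddCircle) := by
  unfold P
  rw [Finset.sum_eq_single i]
  · simp only [if_pos]
    rw [← AddCircle.coe_nsmul, nsmul_eq_mul]
    push_cast
    rfl
  · intro j _ hj
    simp only [if_neg hj, smul_zero]
  · intro h
    exact absurd (Finset.mem_univ i) h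

theorem e_half : e (((1 / 2 : ℝ)) : UnitAddCircle) = -1 := by
  unfold e
  rw [AddCircle.toCircle_apply_mk]
  rw [Circle.coe_exp]
  have : ((2 * Real.pi / 1 * (1 / 2) : ℝ) : ℂ) * Complex.I = Real.pi * Complex.I := by
    push_cast; ring
  rw [this, Complex.exp_pi_mul_I]

/-- two different differences of phases are distinguished by a point -/
theorem sep {k : ℕ} (hk : 2 ≤ k) (x y x' y' : ℕ) (h : x ≠ y) (hne : (x, y) ≠ (x', y')) :
    ∃ t : X k, e ((Ph k x t - Ph k y t) - (Ph k x' t - Ph k y' t)) ≠ 1 := by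
  by_contra hall
  push Not at hall
  have key : ∀ i : Fin k, ((x : ℤ) ^ (i.val + 1) - (y : ℤ) ^ (i.val + 1)) -
      ((x' : ℤ) ^ (i.val + 1) - (y' : ℤ) ^ (i.val + 1)) = 0 := by
    intro i
    by_contra hm
    set m : ℤ := ((x : ℤ) ^ (i.val + 1) - (y : ℤ) ^ (i.val + 1)) -
      ((x' : ℤ) ^ (i.val + 1) - (y' : ℤ) ^ (i.val + 1)) with hmdef
    have hmR : (m : ℝ) ≠ 0 := by exact_mod_cast hm
    have h1 := hall (fun j => if j = i then ((1 / (2 * (m : ℝ)) : ℝ) : UnitAddCircle) else 0 : X k)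
    have h2 : ((Ph k x (fun j => if j = i then ((1 / (2 * (m : ℝ)) : ℝ) : UnitAddCircle) else 0) -
        Ph k y (fun j => if j = i then ((1 / (2 * (m : ℝ)) : ℝ) : UnitAddCircle) else 0)) -
        (Ph k x' (fun j => if j = i then ((1 / (2 * (m : ℝ)) : ℝ) : UnitAddCircle) else 0) -
        Ph k y' (fun j => if j = i then ((1 / (2 * (m : ℝ)) : ℝ) : UnitAddCircle) else 0))) =
        (((1 / 2 : ℝ)) : UnitAddCircle) := by
      show ((P _ x - P _ y) - (P _ x' - P _ y') : UnitAddCircle) = _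
      rw [P_single, P_single, P_single, P_single, ← AddCircle.coe_sub, ← AddCircle.coe_sub,
        ← AddCircle.coe_sub]
      congr 1
      have : (x : ℝ) ^ (i.val + 1) * (1 / (2 * (m : ℝ))) - (y : ℝ) ^ (i.val + 1) * (1 / (2 * (m : ℝ))) -
          ((x' : ℝ) ^ (i.val + 1) * (1 / (2 * (m : ℝ))) - (y' : ℝ) ^ (i.val + 1) * (1 / (2 * (m : ℝ)))) =
          (((x : ℝ) ^ (i.val + 1) - (y : ℝ) ^ (i.val + 1)) - ((x' : ℝ) ^ (i.val + 1) -
            (y' : ℝ) ^ (i.val + 1))) * (1 / (2 * (m : ℝ))) := by ring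
      rw [this]
      have hm' : (((x : ℝ) ^ (i.val + 1) - (y : ℝ) ^ (i.val + 1)) - ((x' : ℝ) ^ (i.val + 1) -
            (y' : ℝ) ^ (i.val + 1))) = (m : ℝ) := by
        rw [hmdef]; push_cast; ring
      rw [hm']
      field_simp
    rw [h2, e_half] at h1
    norm_num at h1
  have k0 := key ⟨0, by omega⟩
  have k1 := key ⟨1, by omega⟩
  simp only [zero_add, pow_one] at k0 k1
  apply hne
  -- x - y = x' - y', x^2 - y^2 = x'^2 - y'^2
  have hxy : (x : ℤ) - y ≠ 0 := by
    intro h0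
    apply h
    have : (x : ℤ) = y := by linarith
    exact_mod_cast this
  have k1' : ((x : ℤ) - y) * ((x : ℤ) + y) = ((x : ℤ) - y) * ((x' : ℤ) + y') := by
    have e1 : (x' : ℤ) - y' = (x : ℤ) - y := by linarith
    have e2 : ((x' : ℤ) - y') * ((x' : ℤ) + y') = ((x : ℤ) - y) * ((x' : ℤ) + y') := by rw [e1]
    have e3 : ((x : ℤ) - y) * ((x : ℤ) + y) = ((x' : ℤ) - y') * ((x' : ℤ) + y') := by
      have : (x : ℤ) ^ (1 + 1) - (y : ℤ) ^ (1 + 1) - ((x' : ℤ) ^ (1 + 1) - (y' : ℤ) ^ (1 + 1)) = 0 := k1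
      ring_nf at this ⊢
      linarith
    rw [e3, e2]
  have k2 := mul_left_cancel₀ hxy k1'
  have f1 : (x : ℤ) = x' := by linarith
  have f2 : (y : ℤ) = y' := by linarith
  have g1 : x = x' := by exact_mod_cast f1
  have g2 : y = y' := by exact_mod_cast f2
  rw [g1, g2]

/-- VA: the variance lemma -/
theorem pf_VA (hE : T_EX) : T_VA := by
  intro k Q L hk hQ hL
  classical
  have hE' := hE
  obtain ⟨hn, hadd, h0, hneg, hce, -⟩ := hE
  have hsub : ∀ x y : UnitAddCircle, e (x - y) = e x * (starRingEnd ℂ) (e y) := fun x y => by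
    rw [sub_eq_add_neg, hadd, hneg]
  set J : Finset (ℕ × ℕ × ℕ) := ((range Q) ×ˢ ((range L) ×ˢ (range L))).filter
    (fun p => p.2.1 ≠ p.2.2) with hJ
  set ψ : ℕ × ℕ × ℕ → (X k →+ UnitAddCircle) := fun p =>
    Ph k (p.1 + Q * p.2.1) - Ph k (p.1 + Q * p.2.2) with hψ
  have hcard : (J.card : ℝ) ≤ Q * L ^ 2 := by
    have h1 : J.card ≤ ((range Q) ×ˢ ((range L) ×ˢ (range L))).card := Finset.card_filter_le _ _
    rw [Finset.card_product, Finset.card_product, Finset.card_range, Finset.card_range] at h1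
    have h2 : (J.card : ℝ) ≤ ((Q * (L * L) : ℕ) : ℝ) := by exact_mod_cast h1
    push_cast at h2
    nlinarith [h2]
  have hc : ∀ p, Continuous (ψ p) := fun p => (Ph_cont k _).sub (Ph_cont k _)
  have hd : ∀ j ∈ J, ∀ j' ∈ J, j ≠ j' → ∃ t, e (ψ j t - ψ j' t) ≠ 1 := by
    rintro ⟨B, z, z1⟩ hj ⟨B', z', z1'⟩ hj' hne
    rw [hJ, Finset.mem_filter, Finset.mem_product, Finset.mem_product] at hj hj'
    simp only [Finset.mem_range] at hj hj'
    obtain ⟨⟨hB, hz, hz1⟩, hzz⟩ := hj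
    obtain ⟨⟨hB', hz', hz1'⟩, hzz'⟩ := hj'
    refine sep hk (B + Q * z) (B + Q * z1) (B' + Q * z') (B' + Q * z1') ?_ ?_
    · intro h
      apply hzz
      have : Q * z = Q * z1 := by omega
      exact Nat.eq_of_mul_eq_mul_left (by omega) this
    · intro h
      rw [Prod.mk.injEq] at h
      obtain ⟨h1, h2⟩ := h
      have hBB : B = B' := by
        have e1 : (B + Q * z) % Q = B := by rw [Nat.add_mul_mod_self_left, Nat.mod_eq_of_lt hB]
        have e2 : (B' + Q * z') % Q = B' := by rw [Nat.add_mul_mod_self_left, Nat.mod_eq_of_lt hB']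
        rw [← e1, ← e2, h1]
      subst hBB
      have e3 : z = z' := Nat.eq_of_mul_eq_mul_left (by omega) (by omega : Q * z = Q * z')
      have e4 : z1 = z1' := Nat.eq_of_mul_eq_mul_left (by omega) (by omega : Q * z1 = Q * z1')
      exact hne (by rw [e3, e4])
  have hI := int_sq hE' J ψ hc hd
  -- the identity
  have hid : ∀ a : X k, ((∑ B ∈ range Q, ‖fc Q B L a‖ ^ 2 - Q * L : ℝ) : ℂ) =
      ∑ p ∈ J, e (ψ p a) := by
    intro a
    have h1 : ∀ B, ((‖fc Q B L a‖ ^ 2 : ℝ) : ℂ) = ∑ q ∈ (range L) ×ˢ (range L), e (ψ (B, q) a) := by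
      intro B
      rw [← Complex.normSq_eq_norm_sq, ← Complex.mul_conj]
      unfold fc
      rw [map_sum, Finset.sum_mul_sum, Finset.sum_product]
      exact Finset.sum_congr rfl fun j _ => Finset.sum_congr rfl fun j' _ => (hsub _ _).symm
    have h2 : ((∑ B ∈ range Q, ‖fc Q B L a‖ ^ 2 : ℝ) : ℂ) =
        ∑ p ∈ (range Q) ×ˢ ((range L) ×ˢ (range L)), e (ψ p a) := by
      rw [Finset.sum_product]
      push_cast
      exact Finset.sum_congr rfl fun B _ => by rw [← h1 B]; push_cast; rfl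
    have h3 : ∑ p ∈ ((range Q) ×ˢ ((range L) ×ˢ (range L))).filter (fun p => ¬ (p.2.1 ≠ p.2.2)),
        e (ψ p a) = (Q : ℂ) * L := by
      have h4 : ∀ p ∈ ((range Q) ×ˢ ((range L) ×ˢ (range L))).filter (fun p => ¬ (p.2.1 ≠ p.2.2)),
          e (ψ p a) = 1 := by
        intro p hp
        rw [Finset.mem_filter, not_not] at hp
        show e (Ph k (p.1 + Q * p.2.1) a - Ph k (p.1 + Q * p.2.2) a) = 1
        rw [hp.2, sub_self, h0]
      rw [Finset.sum_congr rfl h4, Finset.sum_const, nsmul_eq_mul, mul_one]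
      have h5 : (((range Q) ×ˢ ((range L) ×ˢ (range L))).filter
          (fun p => ¬ (p.2.1 ≠ p.2.2))).card = Q * L := by
        have h6 : ((range Q) ×ˢ ((range L) ×ˢ (range L))).filter (fun p => ¬ (p.2.1 ≠ p.2.2)) =
            ((range Q) ×ˢ (range L)).image (fun p : ℕ × ℕ => (p.1, p.2, p.2)) := by
          ext ⟨B, z, z1⟩
          simp only [Finset.mem_filter, Finset.mem_product, Finset.mem_range, not_not,
            Finset.mem_image, Prod.exists, Prod.mk.injEq]
          constructor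
          · rintro ⟨⟨hB, hz, hz1⟩, hzz⟩
            exact ⟨B, z, ⟨hB, hz⟩, rfl, rfl, hzz⟩
          · rintro ⟨b, c, ⟨hb, hc'⟩, rfl, rfl, rfl⟩
            exact ⟨⟨hb, hc', hc'⟩, rfl⟩
        rw [h6, Finset.card_image_of_injective, Finset.card_product, Finset.card_range,
          Finset.card_range]
        rintro ⟨b, c⟩ ⟨b', c'⟩ h
        simp only [Prod.mk.injEq] at h
        exact Prod.ext h.1 h.2.1
      rw [h5]
      push_cast
      rfl
    have h7 := Finset.sum_filter_add_sum_filter_not ((range Q) ×ˢ ((range L) ×ˢ (range L)))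
      (fun p => p.2.1 ≠ p.2.2) (fun p => e (ψ p a))
    rw [h3, ← h2] at h7
    rw [hJ]
    rw [Complex.ofReal_sub, ← h7]
    push_cast
    ring
  have hsq : ∀ a : X k, ‖∑ p ∈ J, e (ψ p a)‖ ^ 2 =
      (∑ B ∈ range Q, ‖fc Q B L a‖ ^ 2 - Q * L) ^ 2 := by
    intro a
    rw [← hid a, Complex.norm_real, Real.norm_eq_abs, sq_abs]
  have hintg : Integrable (fun a : X k => ‖∑ p ∈ J, e (ψ p a)‖ ^ 2) := by
    have hcont : Continuous (fun a : X k => ‖∑ p ∈ J, e (ψ p a)‖ ^ 2) := by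
      refine (Continuous.norm ?_).pow 2
      exact continuous_finsetSum _ fun p _ => hce.comp (hc p)
    exact hcont.integrable_of_hasCompactSupport (HasCompactSupport.of_compactSpace _)
  have hQL : (0 : ℝ) < (Q : ℝ) * L := by
    have : (1 : ℝ) ≤ Q := by exact_mod_cast hQ
    have : (1 : ℝ) ≤ L := by exact_mod_cast hL
    positivity
  have hcheb := mul_meas_ge_le_integral_of_nonneg (μ := (volume : Measure (X k)))
    (f := fun a : X k => ‖∑ p ∈ J, e (ψ p a)‖ ^ 2)
    (Filter.Eventually.of_forall fun a => by positivity) hintg (((Q : ℝ) * L) ^ 2)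
  rw [hI] at hcheb
  have hmono : volume.real {a : X k | 2 * (Q : ℝ) * L ≤ ∑ B ∈ range Q, ‖fc Q B L a‖ ^ 2} ≤
      volume.real {a : X k | ((Q : ℝ) * L) ^ 2 ≤ ‖∑ p ∈ J, e (ψ p a)‖ ^ 2} := by
    apply measureReal_mono
    · intro a ha
      simp only [Set.mem_ofPred_eq] at ha ⊢
      rw [hsq a]
      have : (Q : ℝ) * L ≤ ∑ B ∈ range Q, ‖fc Q B L a‖ ^ 2 - Q * L := by linarith
      exact pow_le_pow_left₀ hQL.le this 2
    · exact measure_ne_top _ _
  have hfin : ((Q : ℝ) * L) ^ 2 *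
      volume.real {a : X k | ((Q : ℝ) * L) ^ 2 ≤ ‖∑ p ∈ J, e (ψ p a)‖ ^ 2} ≤ Q * L ^ 2 :=
    hcheb.trans hcard
  refine hmono.trans ?_
  have hQpos : (0 : ℝ) < Q := by exact_mod_cast (by omega : 0 < Q)
  have hLpos : (0 : ℝ) < L := by exact_mod_cast (by omega : 0 < L)
  rw [le_div_iff₀ hQpos]
  have hpos : (0 : ℝ) < (Q : ℝ) * L ^ 2 := by positivity
  refine le_of_mul_le_mul_left ?_ hpos
  nlinarith [hfin]

end Pool.Agent.H10.CL
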