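import Pool.Agent.H24.CL.Targets

/-!
# A power saving for complete sums (module WE, helper10)
-/

set_option autoImplicit false

open Finset MeasureTheory

namespace Pool.Agent.H10.CL

open Pool.Agent.H24.CL

/-- the dilation of a point -/
noncomputable def dil {k : ℕ} (u : ℕ) (a : X k) : X k := fun i => (u ^ (i.val + 1)) • a i

theorem P_dil {k : ℕ} (u n : ℕ) (a : X k) : P (dil u a) n = P a (u * n) := by
  unfold P dil
  refine Finset.sum_congr rfl fun i _ => ?_
  rw [smul_smul, mul_pow, mul_comm]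

/-- the phase of a point killed by `q` depends on the class modulo `q` -/
theorem P_congr {k q : ℕ} (a : X k) (ha : q • a = 0) (n n' : ℕ) (h : n ≡ n' [MOD q]) :
    P a n = P a n' := by
  have hi : ∀ i : Fin k, q • a i = 0 := fun i => congrFun ha i
  unfold P
  refine Finset.sum_congr rfl fun i _ => ?_
  have h1 : n ^ (i.val + 1) ≡ n' ^ (i.val + 1) [MOD q] := h.pow _
  have h2 : ∀ m : ℕ, m • a i = (m % q) • a i := fun m => by
    conv_lhs => rw [← Nat.div_add_mod m q]
    rw [add_smul, mul_comm, mul_smul, hi, smul_zero, zero_add]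
  rw [h2 (n ^ (i.val + 1)), h2 (n' ^ (i.val + 1)), h1]

/-- the complete sum does not change under dilations -/
theorem sum_dil {k q : ℕ} (hq : q.Prime) (a : X k) (ha : q • a = 0) (u : ℕ) (hu : 0 < u)
    (hu' : u < q) :
    ∑ b ∈ range q, e (P (dil u a) b) = ∑ b ∈ range q, e (P a b) := by
  have hcop : Nat.Coprime q u := Nat.coprime_of_lt_prime hu.ne' hu' hq
  simp_rw [P_dil]
  refine Finset.sum_bij (fun b _ => (u * b) % q) ?_ ?_ ?_ ?_
  · intro b _
    exact Finset.mem_range.2 (Nat.mod_lt _ hq.pos)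
  · intro b hb b' hb' h
    have h1 : u * b ≡ u * b' [MOD q] := h
    have h2 : b ≡ b' [MOD q] := Nat.ModEq.cancel_left_of_coprime (by simpa using hcop) h1
    have e1 := Nat.mod_eq_of_lt (Finset.mem_range.1 hb)
    have e2 := Nat.mod_eq_of_lt (Finset.mem_range.1 hb')
    rw [← e1, ← e2]
    exact h2
  · intro b hb
    obtain ⟨v, hv⟩ : ∃ v : ℕ, u * v ≡ 1 [MOD q] := by
      have := Nat.exists_mul_mod_eq_one_of_coprime hcop.symm hq.one_lt
      obtain ⟨v, hv⟩ := this
      exact ⟨v, by show (u * v) % q = 1 % q; rw [Nat.mod_eq_of_lt hq.one_lt]; exact hv.2⟩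
    refine ⟨(v * b) % q, Finset.mem_range.2 (Nat.mod_lt _ hq.pos), ?_⟩
    have h1 : u * ((v * b) % q) ≡ b [MOD q] := by
      calc u * ((v * b) % q) ≡ u * (v * b) [MOD q] := Nat.ModEq.mul_left _ (Nat.mod_modEq _ _)
        _ = (u * v) * b := by ring
        _ ≡ 1 * b [MOD q] := Nat.ModEq.mul_right _ hv
        _ = b := one_mul b
    have h2 : (u * ((v * b) % q)) % q = b % q := h1
    rw [h2, Nat.mod_eq_of_lt (Finset.mem_range.1 hb)]
  · intro b _
    rw [P_congr a ha (u * b) ((u * b) % q) (Nat.mod_modEq _ _).symm]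

open Classical in
/-- there are many dilates -/
theorem card_dil {k q : ℕ} (hq : q.Prime) (a : X k) (ha : q • a = 0) (hne : a ≠ 0) :
    q - 1 ≤ k * (((range q).filter fun u => 0 < u).image fun u => dil u a).card := by
  obtain ⟨i, hi⟩ : ∃ i, a i ≠ 0 := by
    by_contra h
    push Not at h
    exact hne (funext h)
  have hqi : q • a i = 0 := congrFun ha i
  have : Fact q.Prime := ⟨hq⟩
  have hord : addOrderOf (a i) = q := addOrderOf_eq_prime hqi hi
  have hU : ((range q).filter fun u => 0 < u).card = q - 1 := by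
    have h1 : ((range q).filter fun u => 0 < u) = (range q).erase 0 := by
      ext u
      simp only [Finset.mem_filter, Finset.mem_range, Finset.mem_erase]
      constructor
      · rintro ⟨h1, h2⟩
        exact ⟨h2.ne', h1⟩
      · rintro ⟨h1, h2⟩
        exact ⟨h2, Nat.pos_of_ne_zero h1⟩
    rw [h1, Finset.card_erase_of_mem (Finset.mem_range.2 hq.pos), Finset.card_range]
  rw [← hU]
  apply Finset.card_le_mul_card_image
  intro y hy
  obtain ⟨u0, hu0, rfl⟩ := Finset.mem_image.1 hy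
  have hinj : Set.InjOn (fun u : ℕ => (u : ZMod q))
      ((((range q).filter fun u => 0 < u).filter fun u => dil u a = dil u0 a : Finset ℕ) : Set ℕ) := by
    intro u hu v hv huv
    rw [Finset.mem_coe, Finset.mem_filter, Finset.mem_filter, Finset.mem_range] at hu hv
    have h1 : u ≡ v [MOD q] := (ZMod.natCast_eq_natCast_iff u v q).1 huv
    have e1 := Nat.mod_eq_of_lt hu.1.1
    have e2 := Nat.mod_eq_of_lt hv.1.1
    rw [← e1, ← e2]
    exact h1
  rw [← Finset.card_image_of_injOn hinj]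
  have hsub : ((((range q).filter fun u => 0 < u).filter fun u => dil u a = dil u0 a).image
      fun u : ℕ => (u : ZMod q)) ⊆
      (Polynomial.nthRoots (i.val + 1) ((u0 : ZMod q) ^ (i.val + 1))).toFinset := by
    intro x hx
    obtain ⟨u, hu, rfl⟩ := Finset.mem_image.1 hx
    rw [Finset.mem_filter] at hu
    rw [Multiset.mem_toFinset, Polynomial.mem_nthRoots (Nat.succ_pos _)]
    have h1 : (u ^ (i.val + 1)) • a i = (u0 ^ (i.val + 1)) • a i := congrFun hu.2 i
    rw [nsmul_eq_nsmul_iff_modEq, hord] at h1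
    have h2 := (ZMod.natCast_eq_natCast_iff _ _ q).2 h1
    push_cast at h2
    exact h2
  calc _ ≤ _ := Finset.card_le_card hsub
    _ ≤ Multiset.card (Polynomial.nthRoots (i.val + 1) ((u0 : ZMod q) ^ (i.val + 1))) :=
        Multiset.toFinset_card_le _
    _ ≤ i.val + 1 := Polynomial.card_nthRoots _ _
    _ ≤ k := i.isLt

/-- WE: a power saving for complete sums -/
theorem pf_WE (_hE : T_EX) (hTO : T_TO) (hNW : T_NW) : T_WE := by
  classical
  intro k hk
  refine ⟨2 * k * (Nat.factorial k), by positivity, ?_⟩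
  intro q hq hkq a ha hne
  have hqa : q • a = 0 := by
    have h1 : (q ^ 1) • a = 0 := ha
    rwa [pow_one] at h1
  set S : ℝ := ‖∑ b ∈ range q, e (P a b)‖ with hS
  set I : Finset (X k) := ((range q).filter fun u => 0 < u).image fun u => dil u a with hI
  have hcard := card_dil hq a hqa hne
  rw [← hI] at hcard
  have hval : ∀ h ∈ I, ‖∑ b ∈ range q, (1 : ℂ) * e (P h b)‖ ^ (2 * k) = S ^ (2 * k) := by
    intro h hh
    obtain ⟨u, hu, rfl⟩ := Finset.mem_image.1 hh
    rw [Finset.mem_filter, Finset.mem_range] at hu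
    simp_rw [one_mul]
    rw [sum_dil hq a hqa u hu.2 hu.1]
  have hIsub : I ⊆ HF k q 1 := by
    intro h hh
    obtain ⟨u, hu, rfl⟩ := Finset.mem_image.1 hh
    rw [(hTO k q hq.one_lt.le).2.1 1]
    show (q ^ 1) • dil u a = 0
    rw [pow_one]
    funext i
    show q • ((u ^ (i.val + 1)) • a i) = 0
    rw [smul_comm, show q • a i = 0 from congrFun hqa i, smul_zero]
  have hmain := hNW k q hq hkq (range q) (fun _ => 1) 1 (Finset.Subset.refl _)
    (fun b _ => by simp)
  have hlow : (I.card : ℝ) * S ^ (2 * k) ≤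
      ∑ h ∈ HF k q 1, ‖∑ b ∈ range q, (1 : ℂ) * e (P h b)‖ ^ (2 * k) := by
    calc (I.card : ℝ) * S ^ (2 * k) = ∑ h ∈ I, ‖∑ b ∈ range q, (1 : ℂ) * e (P h b)‖ ^ (2 * k) := by
          rw [Finset.sum_congr rfl hval, Finset.sum_const, nsmul_eq_mul]
      _ ≤ _ := Finset.sum_le_sum_of_subset_of_nonneg hIsub fun _ _ _ => by positivity
  have hup := hlow.trans hmain
  rw [Finset.card_range, one_pow, mul_one] at hup
  -- `(q - 1) S^(2k) ≤ k q^k k! q^k`
  have hS0 : 0 ≤ S := norm_nonneg _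
  have hS2 : 0 ≤ S ^ (2 * k) := pow_nonneg hS0 _
  have hq2 : (2 : ℝ) ≤ q := by exact_mod_cast hq.two_le
  have hcardR : (q : ℝ) - 1 ≤ k * I.card := by
    have h1 : ((q - 1 : ℕ) : ℝ) ≤ ((k * I.card : ℕ) : ℝ) := by exact_mod_cast hcard
    rw [Nat.cast_sub hq.one_lt.le] at h1
    push_cast at h1
    exact h1
  have h1 : (q : ℝ) * S ^ (2 * k) ≤ (2 * k * (Nat.factorial k)) * ((q : ℝ) ^ (2 * k)) := by
    have h2 : (q : ℝ) * S ^ (2 * k) ≤ 2 * ((k * I.card) * S ^ (2 * k)) := by
      have h3 : (q : ℝ) ≤ 2 * (k * I.card) := by linarith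
      calc (q : ℝ) * S ^ (2 * k) ≤ (2 * (k * I.card)) * S ^ (2 * k) :=
            mul_le_mul_of_nonneg_right h3 hS2
        _ = _ := by ring
    have hk0 : (0 : ℝ) ≤ k := by positivity
    calc (q : ℝ) * S ^ (2 * k) ≤ 2 * ((k * I.card) * S ^ (2 * k)) := h2
      _ = 2 * k * ((I.card : ℝ) * S ^ (2 * k)) := by ring
      _ ≤ 2 * k * ((q : ℝ) ^ k * (Nat.factorial k : ℝ) * (q : ℝ) ^ k) := by gcongr
      _ = _ := by rw [two_mul k, pow_add]; ring
  have hq0 : (0 : ℝ) < q := by linarith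
  set C : ℝ := 2 * k * (Nat.factorial k) with hC
  have hC1 : 1 ≤ C := by
    have h2 : (1 : ℝ) ≤ k := by exact_mod_cast (by omega : 1 ≤ k)
    have h3 : (1 : ℝ) ≤ (Nat.factorial k : ℝ) := by exact_mod_cast Nat.factorial_pos k
    nlinarith [mul_le_mul h2 h3 zero_le_one (by linarith)]
  have hk0 : (2 * k : ℕ) ≠ 0 := by omega
  have hkR : (0 : ℝ) < k := by exact_mod_cast (by omega : 0 < k)
  refine (pow_le_pow_iff_left₀ hS0 (by positivity) hk0).1 ?_
  have h4 : ((q : ℝ) ^ (1 - 1 / (2 * (k : ℝ)))) ^ (2 * k) * q = (q : ℝ) ^ (2 * k) := by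
    rw [← Real.rpow_natCast, ← Real.rpow_mul hq0.le]
    have h5 : (1 - 1 / (2 * (k : ℝ))) * ((2 * k : ℕ) : ℝ) = ((2 * k : ℕ) : ℝ) - 1 := by
      push_cast
      field_simp
    rw [h5, Real.rpow_sub_one hq0.ne', Real.rpow_natCast]
    field_simp
  rw [mul_pow]
  have h6 : q * S ^ (2 * k) ≤ q * (C ^ (2 * k) * ((q : ℝ) ^ (1 - 1 / (2 * (k : ℝ)))) ^ (2 * k)) := by
    calc q * S ^ (2 * k) ≤ C * (q : ℝ) ^ (2 * k) := h1
      _ ≤ C ^ (2 * k) * (q : ℝ) ^ (2 * k) := by
          have : C ≤ C ^ (2 * k) := le_self_pow₀ hC1 hk0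
          gcongr
      _ = _ := by rw [← h4]; ring
  exact le_of_mul_le_mul_left h6 hq0

end Pool.Agent.H10.CL
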